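import Pool.Graph.R_pool_sql_team_seeded_1acbe0a2.Results.MP_8707bd_ag.EffectiveAllFields
import Pool.Graph.R_pool_sql_team_seeded_64922ed1.X157.W.Uni3
import Pool.Graph.R_seed8.Y76.NQ.Expl

/-!
# Uniform fat points: one explicit infinite sequence of points for all numbers of points and all
multiplicities at the same time

Uniform SHGH predicts, for `r ≥ 10` general points of multiplicity `m`, the expected Hilbert function in
every degree. The library shows this for every pair `(r, m)` in all degrees `d` but at most one, and in all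
degrees for `r ≥ 37`, `r = 13`, `r = 21` and the squares, for the configurations outside a hypersurface
which depends on `(r, m)`.

Here all these statements hold at the same time for ONE sequence of points `P₀, P₁, P₂, ...`: it is enough
that the affine coordinates of the points are algebraically independent over the prime field
(`GenericPoints`), over fields of characteristic zero, or of characteristic `p` larger than the explicit
bound `heightBound r m`. Then ANY `r ≥ 10` different points of the sequence, taken with ANY multiplicity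
`m ≥ 1`, have the expected Hilbert function in every degree outside a set `A` (which depends only on `r`
and `m`, not on the field and the points) with at most one element, and with no element for `r ≥ 37`,
`r = 13`, `r = 21` and the squares. So one has the inequality of Nagata and, for these `r`, the uniform
SHGH conjecture for all finite subsets of one infinite set of points, in all multiplicities and all
degrees. An explicit sequence over the complex numbers, with real coordinates, is

`P_i = (exp (2 ^ (1 / 2 ^ (2 i + 1))), exp (2 ^ (1 / 2 ^ (2 i + 2))))`.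
-/

set_option autoImplicit false

namespace Pool.Agent.Results.MP_8707bd_ag.OneSequenceOfPoints

open MvPolynomial

section defs
variable {L : Type} [Field L]

/-- The homogeneous ideal of the point `(p 0 : p 1 : 1)`. -/
noncomputable def pointIdeal (p : Fin 2 → L) : Ideal (MvPolynomial (Fin 3) L) :=
  Ideal.span ({X 0 - C (p 0) * X 2, X 1 - C (p 1) * X 2} : Set (MvPolynomial (Fin 3) L))

/-- The ideal `I_Y ^ (m)` of the points `(Y i 0 : Y i 1 : 1)` with multiplicity `m`. -/
noncomputable def fat {r : ℕ} (Y : Fin r → Fin 2 → L) (m : ℕ) : Ideal (MvPolynomial (Fin 3) L) :=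
  ⨅ i : Fin r, pointIdeal (Y i) ^ m

/-- The forms of degree `d` in the ideal `J`. -/
noncomputable def part (J : Ideal (MvPolynomial (Fin 3) L)) (d : ℕ) :
    Submodule L (MvPolynomial (Fin 3) L) :=
  homogeneousSubmodule (Fin 3) L d ⊓ Submodule.restrictScalars L J

/-- The Hilbert function `H_{R/J}(d) = dim R_d - dim [J]_d`. -/
noncomputable def hilb (J : Ideal (MvPolynomial (Fin 3) L)) (d : ℕ) : ℕ :=
  Module.finrank L ↥(homogeneousSubmodule (Fin 3) L d) - Module.finrank L ↥(part J d)

/-- `m Y` is `AH₂(d)`. -/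
def IsAH {r : ℕ} (Y : Fin r → Fin 2 → L) (m d : ℕ) : Prop :=
  hilb (fat Y m) d = min ((d + 2).choose 2) (r * (m + 1).choose 2)

/-- The form `F` is exceptional for `Y`: irreducible, of degree `e`, with multiplicity exactly `c i`
at `Y i`, `e ^ 2 - ∑ c i ^ 2 = -1` and `- 3 e + ∑ c i = -1`. -/
def IsExceptional {r : ℕ} (Y : Fin r → Fin 2 → L) (F : MvPolynomial (Fin 3) L) : Prop :=
  Irreducible F ∧ ∃ (e : ℕ) (c : Fin r → ℕ), F.IsHomogeneous e ∧
    (∀ i, F ∈ pointIdeal (Y i) ^ c i ∧ F ∉ pointIdeal (Y i) ^ (c i + 1)) ∧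
    (e : ℤ) ^ 2 - ∑ i, (c i : ℤ) ^ 2 = -1 ∧ -3 * (e : ℤ) + ∑ i, (c i : ℤ) = -1

/-- The equivalence of Q1 for the points `Y`, the multiplicity `m` and the degree `d`: if
`[I_Y ^ (m)]_d ≠ 0`, then `m Y` fails to be `AH₂(d)` if and only if some `F` exceptional for `Y` has a
power `F ^ s`, `s ≥ 2`, dividing all elements of `[I_Y ^ (m)]_d`. -/
def Equivalence {r : ℕ} (Y : Fin r → Fin 2 → L) (m d : ℕ) : Prop :=
  part (fat Y m) d ≠ ⊥ →
    (¬ IsAH Y m d ↔ ∃ F, IsExceptional Y F ∧ ∃ s : ℕ, 2 ≤ s ∧ ∀ G ∈ part (fat Y m) d, F ^ s ∣ G)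

/-- The affine coordinates of the points `P i` are algebraically independent over the prime field of
`L`: no polynomial with integral coefficients, not all of them zero in `L`, vanishes at them. -/
def GenericPoints (P : ℕ → Fin 2 → L) : Prop :=
  ∀ D : MvPolynomial (ℕ × Fin 2) ℤ, D.map (Int.castRingHom L) ≠ 0 →
    aeval (fun ij : ℕ × Fin 2 => P ij.1 ij.2) D ≠ 0

end defs

/-- The number `c = r m (m + 1) / 2` of the conditions. -/
def conds (r m : ℕ) : ℕ := r * (m + 1).choose 2

/-- The bound for the characteristic. -/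
def heightBound (r m : ℕ) : ℕ :=
  (conds r m).factorial ^ 2 * 4 ^ (conds r m * Nat.sqrt (2 * conds r m))

/-- The degrees `d` which may be left open: none if `r ≥ 37`, `r = 13`, `r = 21` or `r` is a square; for
the other `r` the number `2 d + 3` is in a window around `√r (2 m + 1)`, and for `r = 11` and `r = 15`
moreover `d` is divisible by three, `√r m ≤ d` and `2 d + 3 < √r (2 m + 1)`. -/
def Open (r m d : ℕ) : Prop :=
  ¬ (37 ≤ r ∨ r = 13 ∨ r = 21 ∨ IsSquare r) ∧
  √(r : ℝ) * (2 * m + 1) - min (√(r : ℝ) - 3) (2 / 3 + 9 / (4 * √(r : ℝ))) ≤ 2 * (d : ℝ) + 3 ∧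
  2 * (d : ℝ) + 3 ≤ √(r : ℝ) * (2 * m + 1) + min (√(r : ℝ) - 3) (2 / 3 + 1 / (4 * √(r : ℝ))) ∧
  (r = 11 ∨ r = 15 → 3 ∣ d ∧ √(r : ℝ) * m ≤ d ∧ 2 * (d : ℝ) + 3 < √(r : ℝ) * (2 * m + 1))

/-- the points `(exp (2 ^ (1 / 2 ^ (2 i + 1))), exp (2 ^ (1 / 2 ^ (2 i + 2))))` -/
noncomputable def points (i : ℕ) (j : Fin 2) : ℂ :=
  ((Real.exp ((2 : ℝ) ^ ((1 : ℝ) / 2 ^ (2 * i + (j : ℕ) + 1))) : ℝ) : ℂ)

theorem idx_inj : Function.Injective (fun ij : ℕ × Fin 2 => 2 * ij.1 + (ij.2 : ℕ)) := by
  rintro ⟨i, j⟩ ⟨i', j'⟩ h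
  have h1 := j.2
  have h2 := j'.2
  have h3 : 2 * i + (j : ℕ) = 2 * i' + (j' : ℕ) := h
  have h4 : i = i' := by omega
  have h5 : (j : ℕ) = j' := by omega
  rw [Prod.mk.injEq]
  exact ⟨h4, Fin.ext h5⟩

/-- algebraic independence over the rational numbers -/
def Independent (P : ℕ → Fin 2 → ℂ) : Prop :=
  AlgebraicIndependent ℚ (fun ij : ℕ × Fin 2 => P ij.1 ij.2)

theorem points_independent : Independent points :=
  (Pool.Agent.Y76.NQ.algInd_germ).comp _ idx_inj

theorem generic_of_independent {P : ℕ → Fin 2 → ℂ} (hP : Independent P) : GenericPoints P := by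
  intro D hD h0
  apply hD
  have h1 := hP
  unfold Independent at h1
  rw [algebraicIndependent_iff] at h1
  have h2 := h1 (MvPolynomial.map (Int.castRingHom ℚ) D) (by
    rw [← h0, MvPolynomial.aeval_def, MvPolynomial.eval₂_map, MvPolynomial.aeval_def]
    congr 1)
  ext α
  rw [MvPolynomial.coeff_map, MvPolynomial.coeff_zero]
  have h3 := congrArg (MvPolynomial.coeff α) h2
  rw [MvPolynomial.coeff_map, MvPolynomial.coeff_zero] at h3
  have h4 : MvPolynomial.coeff α D = 0 := by
    have : ((MvPolynomial.coeff α D : ℤ) : ℚ) = 0 := h3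
    exact_mod_cast this
  rw [h4, map_zero]

theorem pair_inj {r : ℕ} {e : Fin r → ℕ} (he : Function.Injective e) :
    Function.Injective (fun ij : Fin r × Fin 2 => (e ij.1, ij.2)) := by
  rintro ⟨i, j⟩ ⟨i', j'⟩ h
  rw [Prod.mk.injEq] at h
  rw [Prod.mk.injEq]
  exact ⟨he h.1, h.2⟩

theorem gen_comp {r : ℕ} {P : ℕ → Fin 2 → ℂ} (hP : Independent P) {e : Fin r → ℕ}
    (he : Function.Injective e) : Pool.Agent.X157.W.Gen (fun i => P (e i)) := by
  unfold Pool.Agent.X157.W.Gen
  unfold Independent at hP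
  exact AlgebraicIndependent.comp hP (fun ij : Fin r × Fin 2 => (e ij.1, ij.2)) (pair_inj he)

section exceptional

open Pool.Agent.TH167 Pool.Agent.TH167.SHDefs Pool.Agent.X157.W Pool.Agent.W609.CR

/-- At points with algebraically independent coordinates a common factor of a nonzero uniform system
has a positive intersection number with the canonical class (the proof is the one of the hand-in
`CommonFactors` of the library). -/
theorem interK_pos {r : ℕ} (hr : 10 ≤ r) {P : Fin r → Fin 2 → ℂ} (hP : Gen P) {m d : ℕ}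
    (hne : sys P d (fun _ => m) ≠ ⊥) {G : MvPolynomial (Fin 3) ℂ} (hG : Irreducible G)
    (hGF : ∀ F ∈ sys P d (fun _ => m), G ∣ F) :
    ∃ (e : ℕ) (u : Fin r → ℕ), Curve P G e u ∧ 0 < interK e u := by
  simp only [SH.sys_eq] at hne hGF
  obtain ⟨F, hF, hF0⟩ := (Submodule.ne_bot_iff _).1 hne
  have hGe := Pool.Agent.Chud.homog_of_dvd ((SH.mem_VS _ _ _ _).1 hF).1 hF0 (hGF F hF)
  choose u hu using fun j => TT.exists_ord (p := P j) hG.ne_zero hGe
  obtain ⟨f, φ, A, hf, hA, hAd, hA1, hcl⟩ := exists_orb2 hP hF0 hF ⟨hG, hGe, hu, hGF⟩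
  have hcase : (f = G.totalDegree ∧ u = fun _ => φ) ∨ ∃ (y x : ℕ) (i0 : Fin r), x ≠ y ∧
      f = r * G.totalDegree ∧ φ = (r - 1) * y + x ∧ u = fun j => if j = i0 then x else y := by
    rcases hcl with ⟨g1, g2, g3⟩ | ⟨y, x, G', i0, g1, g2, g3, g4, g5, g6, g7⟩
    · exact Or.inl ⟨g2, g3⟩
    · exact Or.inr ⟨y, x, i0, g1, g2, g3, g6⟩
  obtain ⟨n1, n2, n3⟩ := orb_num hr hP hf hA1
  refine ⟨G.totalDegree, u, SH.curve_iff.2 ⟨hG, hGe, hu⟩, ?_⟩
  have hr0 : (0 : ℤ) < r := by
    have : 0 < r := by omega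
    exact_mod_cast this
  have hpos : (0 : ℤ) < r * φ - 3 * f := lt_of_lt_of_le n2 n3
  unfold interK
  rcases hcase with ⟨g1, g2⟩ | ⟨y, x, i0, g1, g2, g3, g4⟩
  · rw [g2, ← g1, Finset.sum_const, Finset.card_univ, Fintype.card_fin, nsmul_eq_mul]
    linarith
  · have h1 : ∑ i, ((u i : ℕ) : ℤ) = φ := by
      have h2 : ∑ i, u i = φ := by
        rw [g3, g4, ← sum_ite_uni i0 x y]
      exact_mod_cast h2
    rw [h1]
    have h3 : (f : ℤ) = r * G.totalDegree := by exact_mod_cast g2
    rw [h3] at hpos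
    have h4 : (0 : ℤ) < r * (-3 * G.totalDegree + φ) := by linarith
    exact (mul_pos_iff_of_pos_left hr0).1 h4

theorem mult_unique {I : Ideal (MvPolynomial (Fin 3) ℂ)} {F : MvPolynomial (Fin 3) ℂ} {a b : ℕ}
    (ha : F ∈ I ^ a ∧ F ∉ I ^ (a + 1)) (hb : F ∈ I ^ b ∧ F ∉ I ^ (b + 1)) : a = b := by
  rcases lt_trichotomy a b with h | h | h
  · exact absurd (Ideal.pow_le_pow_right h hb.1) ha.2
  · exact h
  · exact absurd (Ideal.pow_le_pow_right h ha.1) hb.2

theorem not_exceptional {r : ℕ} (hr : 10 ≤ r) {Y : Fin r → Fin 2 → ℂ} (hP : Gen Y) {m d : ℕ}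
    (hne : part (fat Y m) d ≠ ⊥) {F : MvPolynomial (Fin 3) ℂ} (hF : IsExceptional Y F) :
    ∃ G ∈ part (fat Y m) d, ¬ F ∣ G := by
  by_contra hcon
  push Not at hcon
  obtain ⟨e, u, hC, hK⟩ := interK_pos hr hP (m := m) (d := d) hne hF.1 hcon
  obtain ⟨hirr, e', c, hh, hc, -, hcan⟩ := hF
  have he : e = e' := by
    rw [← hC.homogeneous.totalDegree hirr.ne_zero, ← hh.totalDegree hirr.ne_zero]
  have hu : u = c := funext fun i => mult_unique (hC.mult i) (hc i)
  rw [he, hu] at hK
  unfold interK at hK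
  omega

end exceptional

/-- **One sequence of points for all numbers of points and all multiplicities.** -/
theorem result :
    (∀ r m : ℕ, 10 ≤ r → 1 ≤ m → ∃ A : Set ℕ, A.Subsingleton ∧ (∀ d ∈ A, Open r m d) ∧
      -- all fields
      (∀ (L : Type) [Field L], (CharZero L ∨ ∃ p : ℕ, CharP L p ∧ heightBound r m < p) →
        ∀ P : ℕ → Fin 2 → L, GenericPoints P → ∀ e : Fin r → ℕ, Function.Injective e →
          ∀ d : ℕ, d ∉ A → IsAH (fun i => P (e i)) m d) ∧
      -- the complex numbers: the equivalence of Q1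
      ∀ P : ℕ → Fin 2 → ℂ, Independent P → ∀ e : Fin r → ℕ, Function.Injective e →
        ∀ d : ℕ, (d ∉ A → IsAH (fun i => P (e i)) m d ∧ Equivalence (fun i => P (e i)) m d) ∧
          (part (fat (fun i => P (e i)) m) d ≠ ⊥ → ∀ F, IsExceptional (fun i => P (e i)) F →
            ∃ G ∈ part (fat (fun i => P (e i)) m) d, ¬ F ∣ G)) ∧
    Independent points := by
  refine ⟨fun r m hr hm => ?_, points_independent⟩
  obtain ⟨A, hA, hA', ⟨Φ, -, -, -, h1, h2, -, -⟩, -⟩ :=
    Pool.Agent.Results.MP_8707bd_ag.EffectiveAllFields.result r m hr hm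
  have main : ∀ (L : Type) [Field L], (CharZero L ∨ ∃ p : ℕ, CharP L p ∧ heightBound r m < p) →
      ∀ P : ℕ → Fin 2 → L, GenericPoints P → ∀ e : Fin r → ℕ, Function.Injective e →
        ∀ d : ℕ, d ∉ A → IsAH (fun i => P (e i)) m d := by
    intro L _ hL P hP e he d hd
    refine h1 L (fun i => P (e i)) ?_ d hd
    have h3 := (h2 L hL).1
    have h4 : (rename (fun ij : Fin r × Fin 2 => (e ij.1, ij.2)) Φ).map (Int.castRingHom L) ≠ 0 := by
      rw [map_rename]
      intro h5
      exact h3 (rename_injective _ (pair_inj he) (by rw [h5, map_zero]))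
    have h5 := hP _ h4
    rw [aeval_rename] at h5
    intro h6
    apply h5
    rw [← h6]
    unfold Pool.Agent.Results.MP_8707bd_ag.EffectiveAllFields.value
    rw [eval_map, aeval_def]
    congr 1
  refine ⟨A, hA, hA', main, fun P hP e he d => ?_⟩
  have hgen : Pool.Agent.X157.W.Gen (fun i => P (e i)) := gen_comp hP he
  have hex : part (fat (fun i => P (e i)) m) d ≠ ⊥ → ∀ F, IsExceptional (fun i => P (e i)) F →
      ∃ G ∈ part (fat (fun i => P (e i)) m) d, ¬ F ∣ G :=
    fun hne F hF => not_exceptional hr hgen hne hF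
  refine ⟨fun hd => ?_, hex⟩
  have hAH := main ℂ (Or.inl inferInstance) P (generic_of_independent hP) e he d hd
  refine ⟨hAH, fun hne => ⟨fun h => absurd hAH h, ?_⟩⟩
  rintro ⟨F, hF, s, hs, hdiv⟩
  obtain ⟨G, hG, hFG⟩ := hex hne F hF
  exact absurd (dvd_trans (dvd_pow_self F (by omega)) (hdiv G hG)) hFG

end Pool.Agent.Results.MP_8707bd_ag.OneSequenceOfPoints
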